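import Pool.Agent.H358R3.Zab6
set_option autoImplicit false

/-! # The real abelian integers are definable in the abelian integers

`Qab` is the subfield of `ℂ` generated over `ℚ` by all roots of unity, and `Zab = 𝓞 Qab` is its ring
of integers. The set of all real elements of `Zab` is definable without parameters in the language
of rings.

Idea. If `u` and `1 - u ^ 4` are units of `Zab` then `u` is a root of unity: two units with sum `4`
are real, since `u / conj u` has absolute value one at all places, and this applies to
`(1 + u) ^ 2 / u`, `-(1 - u) ^ 2 / u` and to the same with `i * u` in place of `u`. Every root of
unity is the product of two such units. So the roots of unity are definable, then the integers are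
(`x` is an integer iff for every root of unity `ζ` there is a root of unity `η` such that
`(1 - ζ) ^ 2` divides `x * (1 - ζ) - (1 - η)`), and `x` is real iff there are a root of unity `ζ` and
an integer `D ≠ 0` such that for every integer `p` prime to `D`: if `(p, ζ + ζ⁻¹ - a)` is a proper
ideal for some integer `a` then `(p, x - b)` is a proper ideal for some integer `b`. -/

namespace Pool.Agent.Results.MP_5347d0_lc.RealDefinable

open FirstOrder FirstOrder.Language Pool.Agent.H358R3

/-- The set of real elements of `ℤ^ab` is definable without parameters in the ring `ℤ^ab`. -/
theorem result :
    letI : Language.ring.Structure Zab := (FirstOrder.Ring.compatibleRingOfRing Zab).toStructure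
    Set.Definable₁ (∅ : Set Zab) Language.ring {x : Zab | ((x : Qab) : ℂ).im = 0} :=
  Df.definable_of_D (R := fun x : Zab => (inc x).im = 0) real_definable

end Pool.Agent.Results.MP_5347d0_lc.RealDefinable
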